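import Pool.Agent.Work.MP_c03b66_an.All2

/-!
# Fourier coefficients of polydisc algebra functions on `Λ₂`-sets with comparable coordinates

Let `n ≥ 1` and let `E ⊆ (ℤ₊)^n` be a `Λ₂`-set which is covered by finitely many tame sets
(`Tame2`).  Then every square-summable family on `E` is the restriction to `E` of the Fourier
coefficients of a function in the polydisc algebra `C_A(T^n)`.

In particular (second part) this holds if there are `δ > 0` and `R` such that every `k ∈ E` has a
coordinate `i₀` such that all the coordinates of `k` other than `k i₀` which are larger than `R`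
are pairwise comparable up to the factor `δ`.  For `n = 3`: every `k ∈ E` has a coordinate `≤ R`
or two comparable coordinates.
-/

set_option autoImplicit false

namespace Pool.Agent.Results.MP_c03b66_an.ComparableCoordinates

open _root_.MP_c03b66_an

theorem result :
    (∀ (n : ℕ) (E : Set (Fin n → ℤ)), (∀ k ∈ E, ∀ i, 0 ≤ k i) → IsLambda2 E →
      ∀ (T : Type) [Fintype T] (A : T → Set (Fin n → ℤ)), (∀ s, Tame2 (A s)) →
      (∀ k ∈ E, ∃ s, k ∈ A s) → ∀ a : E → ℂ, Summable (fun k => ‖a k‖ ^ 2) →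
      ∃ f : C(Tor n, ℂ), InPolydiscAlgebra f ∧ ∀ k : E, fc f k = a k) ∧
    (∀ (n : ℕ) (E : Set (Fin n → ℤ)), (∀ k ∈ E, ∀ i, 0 ≤ k i) → IsLambda2 E →
      ∀ (δ : ℝ) (R : ℕ), 0 < δ →
      (∀ k ∈ E, ∃ i₀, ∀ l m, l ≠ i₀ → m ≠ i₀ → (R : ℤ) < k l → (R : ℤ) < k m →
        δ * k m ≤ k l) →
      ∀ a : E → ℂ, Summable (fun k => ‖a k‖ ^ 2) →
      ∃ f : C(Tor n, ℂ), InPolydiscAlgebra f ∧ ∀ k : E, fc f k = a k) :=
  ⟨all_T1I, all_T3⟩

end Pool.Agent.Results.MP_c03b66_an.ComparableCoordinates
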