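import Pool.Agent.Work.MP_c03b66_an.FP.Fin

/-!
# Flat analytic polynomials that do not pair with the polydisc algebra, `n ≥ 4`

For `n ≥ 4` and every `ε > 0` there are trigonometric polynomials `p = P₊ F` on `T^n`, `p` with
spectrum in `ℤ₊^n`, such that `‖F‖₁ ≤ ε` although `‖p‖₂ = 1`, `‖p‖₂ ≤ 2 ‖p‖₁` and
`∫ |p|^(2j) ≤ 2 j!` for all `j ≤ m`.  Hence `|∫ f p̄| ≤ ε ‖f‖_∞` for all `f ∈ C_A(T^n)`, and every
`f ∈ C_A(T^n)` with the Fourier coefficients of `p` on the spectrum of `p` has `‖f‖_∞ ≥ 1/ε`.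
-/

set_option autoImplicit false

open MeasureTheory UnitAddTorus

namespace Pool.Agent.Results.MP_c03b66_an.FlatPolynomials

open _root_.MP_c03b66_an

theorem result (n : ℕ) (hn : 4 ≤ n) (m : ℕ) (ε : ℝ) (hε : 0 < ε) :
    ∃ p ∈ H (Pos n), ∃ F ∈ H (Set.univ : Set (Fin n → ℤ)),
      (∀ k ∈ Pos n, fc F k = fc p k) ∧
      ∫ x, ‖F x‖ ∂haar n ≤ ε ∧
      ∫ x, ‖p x‖ ^ 2 ∂haar n = 1 ∧
      1 ≤ 2 * ∫ x, ‖p x‖ ∂haar n ∧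
      (∀ j ≤ m, ∫ x, ‖p x‖ ^ (2 * j) ∂haar n ≤ 2 * j.factorial) ∧
      (∀ f : C(Tor n, ℂ), InPolydiscAlgebra f →
        ‖∫ x, f x * star (p x) ∂haar n‖ ≤ ε * ‖f‖) ∧
      (∀ f : C(Tor n, ℂ), InPolydiscAlgebra f → (∀ k, fc p k ≠ 0 → fc f k = fc p k) →
        1 ≤ ε * ‖f‖) :=
  flat_final n hn m ε hε

end Pool.Agent.Results.MP_c03b66_an.FlatPolynomials
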