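import Pool.Agent.Work.MP_c03b66_an.FP.KC

/-!
# `(H^r(T^n), H^∞(T^n))` is not K-closed in `(L^r(T^n), L^∞(T^n))` for `n ≥ 4`, `1 ≤ r < ∞`
-/

set_option autoImplicit false

open MeasureTheory UnitAddTorus
open scoped ENNReal NNReal

namespace Pool.Agent.Results.MP_c03b66_an.NotKClosed

open _root_.MP_c03b66_an

theorem result (n : ℕ) (hn : 4 ≤ n) (r : ℝ≥0∞) (hr1 : 1 ≤ r) (hr : r ≠ ⊤) :
    ¬ ∃ C : ℝ≥0, ∀ g h : Tor n → ℂ, MemLp g r (haar n) → MemLp h ⊤ (haar n) →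
      (∀ k, k ∉ Pos n → fc (g + h) k = 0) →
      ∃ g' h' : Tor n → ℂ, MemLp g' r (haar n) ∧ MemLp h' ⊤ (haar n) ∧
        (∀ k, k ∉ Pos n → fc g' k = 0) ∧ (∀ k, k ∉ Pos n → fc h' k = 0) ∧
        g' + h' =ᵐ[haar n] g + h ∧
        eLpNorm g' r (haar n) ≤ C * eLpNorm g r (haar n) ∧
        eLpNorm h' ⊤ (haar n) ≤ C * eLpNorm h ⊤ (haar n) :=
  not_KClosed hn r hr1 hr

end Pool.Agent.Results.MP_c03b66_an.NotKClosed
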