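import Pool.Agent.Work.MP_c03b66_an.All

/-!
# Fourier coefficients on arbitrary `Λ₂`-sets of functions with spectrum in a slightly larger cone

Let `E ⊆ (ℤ₊)^n` be any `Λ₂`-set, `i₀` a coordinate and `ε > 0`.  Then every square-summable
family on `E` is the restriction to `E` of the Fourier coefficients of a continuous function on
the torus whose spectrum lies in the set of all `k` with `k i₀ ≥ 0` and, for all `l ≠ i₀`,
`k l ≥ 0` or `k l ≥ - ε k m` for some `m ≠ i₀`, that is,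
`k l ≥ - ε max (k m : m ≠ i₀)` when this maximum is nonnegative.
-/

set_option autoImplicit false

namespace Pool.Agent.Results.MP_c03b66_an.SlightlyLargerCone

open _root_.MP_c03b66_an

theorem result : ∀ (n : ℕ) (E : Set (Fin n → ℤ)), (∀ k ∈ E, ∀ i, 0 ≤ k i) → IsLambda2 E →
    ∀ (i₀ : Fin n) (ε : ℝ), 0 < ε → ∀ a : E → ℂ, Summable (fun k => ‖a k‖ ^ 2) →
    ∃ f : C(Tor n, ℂ), (∀ k : E, fc f k = a k) ∧ ∀ k : Fin n → ℤ, fc f k ≠ 0 →
      0 ≤ k i₀ ∧ ∀ l, l ≠ i₀ → 0 ≤ k l ∨ ∃ m, m ≠ i₀ ∧ -(k l : ℝ) ≤ ε * k m :=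
  all_T2

end Pool.Agent.Results.MP_c03b66_an.SlightlyLargerCone
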